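import Mathlib

set_option autoImplicit false

/-! Face lattices of polyhedral cones. -/

namespace Pool.Agent.Q196.PM

open Set Filter Topology

/-- Nonempty convex extreme subsets. -/
def IsFace {V : Type*} [AddCommGroup V] [Module ℝ V] (K F : Set V) : Prop :=
  F.Nonempty ∧ Convex ℝ F ∧ IsExtreme ℝ K F

section

variable {V : Type*} [AddCommGroup V] [Module ℝ V] {C : Type*} [Fintype C]
  (M : Submodule ℝ V) (l : C → V →ₗ[ℝ] ℝ)

omit [Fintype C]

/-- The cone. -/
def cone : Set V := {x | x ∈ M ∧ ∀ c, 0 ≤ l c x}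

theorem cone_smul {x : V} (hx : x ∈ cone M l) {t : ℝ} (ht : 0 ≤ t) : t • x ∈ cone M l :=
  ⟨M.smul_mem t hx.1, fun c => by
    rw [map_smul, smul_eq_mul]; exact mul_nonneg ht (hx.2 c)⟩

theorem cone_add {x y : V} (hx : x ∈ cone M l) (hy : y ∈ cone M l) : x + y ∈ cone M l :=
  ⟨M.add_mem hx.1 hy.1, fun c => by
    rw [map_add]; exact add_nonneg (hx.2 c) (hy.2 c)⟩

theorem zero_mem_cone : (0 : V) ∈ cone M l := ⟨M.zero_mem, fun c => by rw [map_zero]⟩

theorem convex_cone : Convex ℝ (cone M l) := by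
  intro x hx y hy a b ha hb _
  exact cone_add M l (cone_smul M l hx ha) (cone_smul M l hy hb)

theorem face_self : IsFace (cone M l) (cone M l) :=
  ⟨⟨0, zero_mem_cone M l⟩, convex_cone M l, IsExtreme.refl ℝ _⟩

variable {M l}

/-- The step: small multiples below an element of a face lie in the face. -/
theorem mem_face {F : Set V} (hF : IsFace (cone M l) F) {x y : V} (hx : x ∈ F)
    (hy : y ∈ cone M l) {t : ℝ} (ht : 0 < t) (hxy : x - t • y ∈ cone M l) : y ∈ F := by
  have h1 : (2 * t) • y ∈ F := by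
    refine hF.2.2.right_mem_of_mem_openSegment (cone_smul M l hxy (by norm_num : (0 : ℝ) ≤ 2))
      (cone_smul M l hy (by positivity)) hx ?_
    refine ⟨1 / 2, 1 / 2, by norm_num, by norm_num, by norm_num, ?_⟩
    rw [smul_smul, smul_smul]
    have h2 : (1 / 2 : ℝ) * 2 = 1 := by norm_num
    have h3 : (1 / 2 : ℝ) * (2 * t) = t := by ring
    rw [h2, h3, one_smul, sub_add_cancel]
  -- scaling
  set w := (2 * t) • y with hw
  have hwK : w ∈ cone M l := hF.2.2.1 h1
  obtain ⟨N, hN⟩ := exists_nat_gt (1 + 1 / (2 * t))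
  have hN1 : (1 : ℝ) < N := by
    have : (0 : ℝ) < 1 / (2 * t) := by positivity
    linarith
  have hN0 : (0 : ℝ) < N := by linarith
  have hseg : w ∈ openSegment ℝ (0 : V) ((N : ℝ) • w) :=
    ⟨1 - 1 / N, 1 / N, by
      rw [sub_pos, div_lt_one hN0]; exact hN1, by positivity, by ring, by
      rw [smul_zero, zero_add, smul_smul, one_div, inv_mul_cancel₀ hN0.ne', one_smul]⟩
  have h4 : (0 : V) ∈ F ∧ (N : ℝ) • w ∈ F :=
    ⟨hF.2.2.left_mem_of_mem_openSegment (zero_mem_cone M l) (cone_smul M l hwK hN0.le) h1 hseg,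
      hF.2.2.right_mem_of_mem_openSegment (zero_mem_cone M l) (cone_smul M l hwK hN0.le) h1 hseg⟩
  have h5 : (1 - (1 / (2 * t)) / N) • (0 : V) + ((1 / (2 * t)) / N) • ((N : ℝ) • w) ∈ F := by
    refine hF.2.1 h4.1 h4.2 ?_ (by positivity) (by ring)
    rw [sub_nonneg, div_le_one hN0]
    linarith
  have h6 : (1 - (1 / (2 * t)) / N) • (0 : V) + ((1 / (2 * t)) / N) • ((N : ℝ) • w) = y := by
    rw [smul_zero, zero_add, smul_smul, hw, smul_smul]
    have h7 : 1 / (2 * t) / (N : ℝ) * N * (2 * t) = 1 := by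
      field_simp
    rw [h7, one_smul]
  rwa [h6] at h5

theorem face_eq [Fintype C] {F : Set V} (hF : IsFace (cone M l) F) {x : V} (hx : x ∈ F)
    (hpos : ∀ c, ∀ y ∈ cone M l, 0 < l c y → 0 < l c x) : F = cone M l := by
  refine Subset.antisymm hF.2.2.1 fun y hy => ?_
  have hxK := hF.2.2.1 hx
  have h1 : ∀ᶠ t : ℝ in 𝓝[>] 0, ∀ c, 0 ≤ l c x - t * l c y := by
    rw [eventually_all]
    intro c
    by_cases hc : 0 < l c y
    · have h2 : Tendsto (fun t : ℝ => l c x - t * l c y) (𝓝[>] 0) (𝓝 (l c x - 0 * l c y)) := by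
        refine Tendsto.mono_left ?_ nhdsWithin_le_nhds
        exact tendsto_const_nhds.sub (tendsto_id.mul_const _)
      rw [zero_mul, sub_zero] at h2
      filter_upwards [h2.eventually_const_lt (hpos c y hy hc)] with t ht
      exact ht.le
    · have h3 : l c y = 0 := le_antisymm (not_lt.1 hc) (hy.2 c)
      refine Eventually.of_forall fun t => ?_
      rw [h3, mul_zero, sub_zero]
      exact hxK.2 c
  obtain ⟨t, ht, ht0⟩ := (h1.and self_mem_nhdsWithin).exists
  refine mem_face hF hx hy ht0 ⟨M.sub_mem hxK.1 (M.smul_mem t hy.1), fun c => ?_⟩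
  rw [map_sub, map_smul, smul_eq_mul]
  exact ht c

variable (M l)

/-- The facets. -/
def H (c : C) : Set V := {x | x ∈ cone M l ∧ l c x = 0}

theorem H_face (c : C) : IsFace (cone M l) (H M l c) := by
  refine ⟨⟨0, zero_mem_cone M l, map_zero _⟩, ?_, fun x hx => hx.1, ?_⟩
  · intro x hx y hy a b ha hb hab
    refine ⟨convex_cone M l hx.1 hy.1 ha hb hab, ?_⟩
    rw [map_add, map_smul, map_smul, hx.2, hy.2, smul_zero, smul_zero, add_zero]
  · rintro x hx y hy z hz ⟨a, b, ha, hb, hab, rfl⟩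
    have h1 := hz.2
    rw [map_add, map_smul, map_smul, smul_eq_mul, smul_eq_mul] at h1
    have h2 := mul_nonneg ha.le (hx.2 c)
    have h3 := mul_nonneg hb.le (hy.2 c)
    have h4 : a * l c x = 0 := by linarith
    exact ⟨hx, (mul_eq_zero.1 h4).resolve_left ha.ne'⟩

variable {M l}

/-- Proper faces lie in proper `H c`. -/
theorem exists_H [Fintype C] {F : Set V} (hF : IsFace (cone M l) F) (hne : F ≠ cone M l) :
    ∃ c, F ⊆ H M l c ∧ H M l c ≠ cone M l := by
  classical
  by_contra hcon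
  push Not at hcon
  refine hne ?_
  have h1 : ∀ s : Finset C, ∃ x ∈ F, ∀ c ∈ s, ∀ y ∈ cone M l, 0 < l c y → 0 < l c x := by
    intro s
    induction s using Finset.induction_on with
    | empty =>
      obtain ⟨x, hx⟩ := hF.1
      exact ⟨x, hx, fun c hc => by simp at hc⟩
    | insert c s hc ih =>
      obtain ⟨x, hx, hxs⟩ := ih
      by_cases hex : ∃ y ∈ cone M l, 0 < l c y
      · obtain ⟨y, hy, hyc⟩ := hex
        have h2 : ¬ F ⊆ H M l c := by
          intro h3
          have h4 := hcon c h3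
          rw [← h4] at hy
          exact hyc.ne' hy.2
        rw [not_subset] at h2
        obtain ⟨z, hz, hzc⟩ := h2
        have hzK := hF.2.2.1 hz
        have hxK := hF.2.2.1 hx
        have hzc' : 0 < l c z := lt_of_le_of_ne (hzK.2 c) fun h5 => hzc ⟨hzK, h5.symm⟩
        refine ⟨(1 / 2 : ℝ) • x + (1 / 2 : ℝ) • z, hF.2.1 hx hz (by norm_num) (by norm_num)
          (by norm_num), fun d hd w hw hdw => ?_⟩
        rw [map_add, map_smul, map_smul, smul_eq_mul, smul_eq_mul]
        rcases Finset.mem_insert.1 hd with rfl | hd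
        · have := hxK.2 d
          linarith
        · have h6 := hxs d hd w hw hdw
          have h7 := hzK.2 d
          linarith
      · refine ⟨x, hx, fun d hd w hw hdw => ?_⟩
        rcases Finset.mem_insert.1 hd with rfl | hd
        · exact absurd ⟨w, hw, hdw⟩ hex
        · exact hxs d hd w hw hdw
  obtain ⟨x, hx, hxs⟩ := h1 Finset.univ
  exact face_eq hF hx fun c => hxs c (Finset.mem_univ c)

end

/-- Cones with different numbers of facets have non-isomorphic face posets. -/
theorem no_iso {V V' : Type*} [AddCommGroup V] [Module ℝ V] [AddCommGroup V'] [Module ℝ V']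
    {C C' : Type*} [Fintype C] [Fintype C'] (M : Submodule ℝ V) (l : C → V →ₗ[ℝ] ℝ)
    (M' : Submodule ℝ V') (l' : C' → V' →ₗ[ℝ] ℝ) (hcard : Fintype.card C' < Fintype.card C)
    (hC : 2 ≤ Fintype.card C) (x : C → V) (hxK : ∀ c, x c ∈ cone M l) (hx0 : ∀ c, l c (x c) = 0)
    (hx : ∀ c c', c' ≠ c → 0 < l c' (x c)) :
    IsEmpty ({F // IsFace (cone M l) F} ≃o {F // IsFace (cone M' l') F}) := by
  classical
  refine ⟨fun e => ?_⟩
  let T : {F // IsFace (cone M l) F} := ⟨cone M l, face_self M l⟩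
  let T' : {F // IsFace (cone M' l') F} := ⟨cone M' l', face_self M' l'⟩
  have hT : ∀ F, F ≤ T := fun F => F.2.2.2.1
  have hT' : ∀ F, F ≤ T' := fun F => F.2.2.2.1
  have heT : e T = T' := by
    refine le_antisymm (hT' _) ?_
    rw [← e.apply_symm_apply T']
    exact e.monotone (hT _)
  let G : C → {F // IsFace (cone M l) F} := fun c => ⟨H M l c, H_face M l c⟩
  have hG : ∀ c, G c ≠ T := by
    intro c h
    obtain ⟨c', hc'⟩ : ∃ c', c' ≠ c := by
      by_contra hcon
      push Not at hcon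
      have : Fintype.card C ≤ 1 := Fintype.card_le_one_iff.2 fun a b => (hcon a).trans (hcon b).symm
      omega
    have h1 : H M l c = cone M l := congrArg Subtype.val h
    have h2 : x c' ∈ H M l c := by rw [h1]; exact hxK c'
    exact (hx c' c hc'.symm).ne' h2.2
  have hex : ∀ c, ∃ d, (e (G c)).1 ⊆ H M' l' d ∧ H M' l' d ≠ cone M' l' := by
    intro c
    refine exists_H (e (G c)).2 fun h => hG c ?_
    apply e.injective
    rw [heT]
    exact Subtype.ext h
  choose φ hφ using hex
  obtain ⟨c, c', hcc, hφc⟩ := Fintype.exists_ne_map_eq_of_card_lt φ hcard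
  let F' : {F // IsFace (cone M' l') F} := ⟨H M' l' (φ c), H_face M' l' (φ c)⟩
  have h1 : G c ≤ e.symm F' := by
    rw [e.le_symm_apply]
    exact (hφ c).1
  have h2 : G c' ≤ e.symm F' := by
    rw [e.le_symm_apply]
    show (e (G c')).1 ⊆ H M' l' (φ c)
    rw [hφc]
    exact (hφ c').1
  have h3 : x c ∈ (e.symm F').1 := h1 ⟨hxK c, hx0 c⟩
  have h4 : x c' ∈ (e.symm F').1 := h2 ⟨hxK c', hx0 c'⟩
  have h5 : (e.symm F').1 = cone M l := by
    refine face_eq (e.symm F').2 (x := (1 / 2 : ℝ) • x c + (1 / 2 : ℝ) • x c')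
      ((e.symm F').2.2.1 h3 h4 (by norm_num) (by norm_num) (by norm_num)) fun d y hy hdy => ?_
    rw [map_add, map_smul, map_smul, smul_eq_mul, smul_eq_mul]
    have h6 := (hxK c).2 d
    have h7 := (hxK c').2 d
    by_cases hd : d = c
    · have := hx c' d (by rw [hd]; exact hcc)
      linarith
    · have := hx c d hd
      linarith
  refine (hφ c).2 ?_
  have h6 : e.symm F' = T := Subtype.ext h5
  have h7 : F' = T' := by rw [← heT, ← h6, e.apply_symm_apply]
  exact congrArg Subtype.val h7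

end Pool.Agent.Q196.PM
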