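import Mathlib
import Pool.Agent.Q196.PM.Face

set_option autoImplicit false

/-! Polygonal measures of a finite set of points. -/

namespace Pool.Agent.Q196.PM

open MeasureTheory Set Filter Topology

/-- Twice the signed area of the triangle `a b z`. -/
def L (a b z : ℂ) : ℝ := (b.re - a.re) * (z.im - a.im) - (b.im - a.im) * (z.re - a.re)

theorem L_swap (a b z : ℂ) : L b a z = -L a b z := by unfold L; ring

theorem L_self (a z : ℂ) : L a a z = 0 := by unfold L; ring

theorem L_left (a b : ℂ) : L a b a = 0 := by unfold L; ring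

theorem L_right (a b : ℂ) : L a b b = 0 := by unfold L; ring

theorem L_cyc (a b c : ℂ) : L b c a = L a b c := by unfold L; ring

theorem L_sum (a b c z : ℂ) : L a b z + L b c z + L c a z = L a b c := by unfold L; ring

theorem L_comb (a b x y : ℂ) (s t : ℝ) (h : s + t = 1) :
    L a b (s • x + t • y) = s * L a b x + t * L a b y := by
  have hs : s = 1 - t := by linarith
  subst hs
  simp only [L, Complex.add_re, Complex.add_im, Complex.smul_re, Complex.smul_im, smul_eq_mul]
  ring

theorem continuous_L (a b : ℂ) : Continuous (L a b) := by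
  unfold L
  fun_prop

theorem convex_pos (a b : ℂ) : Convex ℝ {z | 0 ≤ L a b z} := by
  intro x hx y hy s t hs ht hst
  show 0 ≤ L a b (s • x + t • y)
  rw [L_comb a b x y s t hst]
  exact add_nonneg (mul_nonneg hs hx) (mul_nonneg ht hy)

theorem bary (a b c z : ℂ) (h : L a b c ≠ 0) :
    z = (L b c z / L a b c) • a + (L c a z / L a b c) • b + (L a b z / L a b c) • c := by
  have h1 : L a b c • z = L b c z • a + L c a z • b + L a b z • c := by
    apply Complex.ext
    · simp only [L, Complex.add_re, Complex.smul_re, smul_eq_mul]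
      ring
    · simp only [L, Complex.add_im, Complex.smul_im, smul_eq_mul]
      ring
  calc z = (L a b c)⁻¹ • (L a b c • z) := by rw [smul_smul, inv_mul_cancel₀ h, one_smul]
    _ = _ := by
      rw [h1, smul_add, smul_add, smul_smul, smul_smul, smul_smul]
      simp only [div_eq_inv_mul]

theorem mem_hull_of {a b c z : ℂ} (h : L a b c ≠ 0) (h1 : 0 ≤ L b c z / L a b c)
    (h2 : 0 ≤ L c a z / L a b c) (h3 : 0 ≤ L a b z / L a b c) : z ∈ convexHull ℝ {a, b, c} := by
  have hsum : L b c z / L a b c + L c a z / L a b c + L a b z / L a b c = 1 := by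
    rw [← add_div, ← add_div, div_eq_one_iff_eq h, ← L_sum a b c z]
    ring
  have h4 := (convex_convexHull ℝ ({a, b, c} : Set ℂ)).sum_mem (t := (Finset.univ : Finset (Fin 3)))
    (w := ![L b c z / L a b c, L c a z / L a b c, L a b z / L a b c]) (z := ![a, b, c])
    (by intro i _; fin_cases i <;> assumption)
    (by rw [Fin.sum_univ_three]; exact hsum)
    (by
      intro i _
      fin_cases i
      · exact subset_convexHull ℝ _ (by simp)
      · exact subset_convexHull ℝ _ (by simp)
      · exact subset_convexHull ℝ _ (by simp))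
  rw [Fin.sum_univ_three] at h4
  rw [bary a b c z h]
  exact h4

theorem hull_subset {a b c p q : ℂ} (ha : 0 ≤ L p q a) (hb : 0 ≤ L p q b) (hc : 0 ≤ L p q c) :
    convexHull ℝ {a, b, c} ⊆ {z | 0 ≤ L p q z} := by
  refine convexHull_min ?_ (convex_pos p q)
  rintro x (rfl | rfl | rfl)
  · exact ha
  · exact hb
  · exact hc

theorem mem_hull_iff {a b c z : ℂ} (h : L a b c ≠ 0) (h1 : L a b z ≠ 0) (h2 : L b c z ≠ 0)
    (h3 : L c a z ≠ 0) : z ∈ convexHull ℝ {a, b, c} ↔
      (0 < L a b z ∧ 0 < L b c z ∧ 0 < L c a z) ∨ (0 < L b a z ∧ 0 < L c b z ∧ 0 < L a c z) := by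
  have hs := L_sum a b c z
  constructor
  · intro hz
    rcases lt_or_gt_of_ne h with hneg | hpos
    · right
      have e1 : 0 ≤ L b a z := hull_subset (L_right b a).ge (L_left b a).ge (by
        rw [L_swap]; linarith) hz
      have e2 : 0 ≤ L c b z := hull_subset (by rw [L_swap, L_cyc]; linarith) (L_right c b).ge
        (L_left c b).ge hz
      have e0 : L a c b = -L a b c := by unfold L; ring
      have e3 : 0 ≤ L a c z := hull_subset (L_left a c).ge (by linarith) (L_right a c).ge hz
      rw [L_swap] at e1 e2 e3 ⊢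
      refine ⟨lt_of_le_of_ne e1 ?_, lt_of_le_of_ne (by rw [L_swap]; exact e2) ?_,
        lt_of_le_of_ne (by rw [L_swap]; exact e3) ?_⟩
      · intro h4; exact h1 (by linarith)
      · intro h4; rw [L_swap] at h4; exact h2 (by linarith)
      · intro h4; rw [L_swap] at h4; exact h3 (by linarith)
    · left
      have e1 : 0 ≤ L a b z := hull_subset (L_left a b).ge (L_right a b).ge hpos.le hz
      have e2 : 0 ≤ L b c z := hull_subset (by rw [L_cyc]; exact hpos.le) (L_left b c).ge
        (L_right b c).ge hz
      have e3 : 0 ≤ L c a z := hull_subset (L_right c a).ge (by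
        rw [L_cyc b c a, L_cyc a b c]; exact hpos.le) (L_left c a).ge hz
      exact ⟨lt_of_le_of_ne e1 h1.symm, lt_of_le_of_ne e2 h2.symm, lt_of_le_of_ne e3 h3.symm⟩
  · rintro (⟨e1, e2, e3⟩ | ⟨e1, e2, e3⟩)
    · have h0 : 0 < L a b c := by linarith
      exact mem_hull_of h (by positivity) (by positivity) (by positivity)
    · rw [L_swap] at e1 e2 e3
      have h0 : L a b c < 0 := by linarith
      exact mem_hull_of h (div_nonneg_of_nonpos (by linarith) h0.le)
        (div_nonneg_of_nonpos (by linarith) h0.le) (div_nonneg_of_nonpos (by linarith) h0.le)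

end Pool.Agent.Q196.PM
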