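import Mathlib
import Pool.Agent.Q196.PM.Basic

set_option autoImplicit false

/-! The space of polygonal measures and the cone of non-negative ones. -/

namespace Pool.Agent.Q196.PM

open MeasureTheory Set Filter Topology

instance instFin (a b c : ℂ) : IsFiniteMeasure (volume.restrict (convexHull ℝ {a, b, c})) :=
  ⟨by
    rw [Measure.restrict_apply_univ]
    exact ((Set.toFinite {a, b, c}).isCompact_convexHull ℝ).measure_lt_top⟩

/-- The standard measure of the triangle with vertices `a b c`. -/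
noncomputable def tri (a b c : ℂ) : SignedMeasure ℂ :=
  (volume.restrict (convexHull ℝ {a, b, c})).toSignedMeasure

/-- The real span of the standard measures of the triangles with vertices in `S`. -/
noncomputable def polySpace (S : Set ℂ) : Submodule ℝ (SignedMeasure ℂ) :=
  Submodule.span ℝ {μ | ∃ a ∈ S, ∃ b ∈ S, ∃ c ∈ S, ¬ Collinear ℝ {a, b, c} ∧ μ = tri a b c}

/-- The cone of non-negative polygonal measures. -/
def posCone (S : Set ℂ) : Set (SignedMeasure ℂ) := {μ | μ ∈ polySpace S ∧ 0 ≤ μ}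

theorem collinear_of_L {a b c : ℂ} (h : Collinear ℝ {a, b, c}) : L a b c = 0 := by
  rw [collinear_iff_of_mem (p₀ := a) (by simp)] at h
  obtain ⟨w, hw⟩ := h
  obtain ⟨r, hr⟩ := hw b (by simp)
  obtain ⟨s, hs⟩ := hw c (by simp)
  rw [hr, hs]
  simp only [L, vadd_eq_add, Complex.add_re, Complex.add_im, Complex.smul_re, Complex.smul_im,
    smul_eq_mul]
  ring

theorem not_collinear {a b c : ℂ} (h : L a b c ≠ 0) : ¬ Collinear ℝ {a, b, c} :=
  fun h1 => h (collinear_of_L h1)

theorem L_ne_of {a b c : ℂ} (h : ¬ Collinear ℝ {a, b, c}) : L a b c ≠ 0 := by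
  intro h0
  apply h
  by_cases hab : a = b
  · subst hab
    have : ({a, a, c} : Set ℂ) = {a, c} := by simp
    rw [this]
    exact collinear_pair ℝ a c
  rw [collinear_iff_of_mem (p₀ := a) (by simp)]
  refine ⟨b - a, ?_⟩
  have hN : 0 < (b.re - a.re) ^ 2 + (b.im - a.im) ^ 2 := by
    by_contra hcon
    have h1 : (b.re - a.re) ^ 2 = 0 := by nlinarith [sq_nonneg (b.re - a.re), sq_nonneg (b.im - a.im)]
    have h2 : (b.im - a.im) ^ 2 = 0 := by nlinarith [sq_nonneg (b.re - a.re), sq_nonneg (b.im - a.im)]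
    apply hab
    apply Complex.ext
    · have := pow_eq_zero_iff (two_ne_zero) |>.1 h1
      linarith
    · have := pow_eq_zero_iff (two_ne_zero) |>.1 h2
      linarith
  rintro x (rfl | rfl | rfl)
  · exact ⟨0, by simp⟩
  · exact ⟨1, by simp⟩
  · refine ⟨((b.re - a.re) * (x.re - a.re) + (b.im - a.im) * (x.im - a.im)) /
      ((b.re - a.re) ^ 2 + (b.im - a.im) ^ 2), ?_⟩
    unfold L at h0
    apply Complex.ext
    · simp only [vadd_eq_add, Complex.add_re, Complex.smul_re, Complex.sub_re, smul_eq_mul]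
      field_simp
      linear_combination (-(b.im - a.im)) * h0
    · simp only [vadd_eq_add, Complex.add_im, Complex.smul_im, Complex.sub_im, smul_eq_mul]
      field_simp
      linear_combination ((b.re - a.re)) * h0

section

variable {ι C : Type*} (v : ι → ℂ) (u : C → ℂ)

/-- The chamber of `w`. -/
def Ch (w : ℂ) : Set ℂ := {z | ∀ p q, 0 < L (v p) (v q) w → 0 < L (v p) (v q) z}

/-- Points off the lines. -/
def Off (z : ℂ) : Prop := ∀ p q, p ≠ q → L (v p) (v q) z ≠ 0

theorem mem_Ch_self (w : ℂ) : w ∈ Ch v w := fun _ _ h => h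

theorem isOpen_Ch [Finite ι] (w : ℂ) : IsOpen (Ch v w) := by
  have h1 : Ch v w = ⋂ p, ⋂ q, ⋂ (_ : 0 < L (v p) (v q) w), {z | 0 < L (v p) (v q) z} := by
    ext z
    simp only [Ch, mem_ofPred_eq, mem_iInter]
  rw [h1]
  exact isOpen_iInter_of_finite fun p => isOpen_iInter_of_finite fun q =>
    isOpen_iInter_of_finite fun _ => isOpen_lt continuous_const (continuous_L _ _)

variable {v u}

theorem Ch_iff {w z : ℂ} (hw : Off v w) (hz : z ∈ Ch v w) (p q : ι) :
    0 < L (v p) (v q) z ↔ 0 < L (v p) (v q) w := by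
  refine ⟨fun h => ?_, hz p q⟩
  by_cases hpq : p = q
  · subst hpq
    rw [L_self] at h
    exact absurd h (lt_irrefl _)
  by_contra hcon
  have h1 : L (v p) (v q) w < 0 := lt_of_le_of_ne (not_lt.1 hcon) (hw p q hpq)
  have h2 : 0 < L (v q) (v p) z := hz q p (by rw [L_swap]; linarith)
  rw [L_swap] at h2
  linarith

theorem Off_of_mem {w z : ℂ} (hw : Off v w) (hz : z ∈ Ch v w) : Off v z := by
  intro p q hpq h
  rcases lt_or_gt_of_ne (hw p q hpq) with h1 | h1
  · have h2 : 0 < L (v q) (v p) z := hz q p (by rw [L_swap]; linarith)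
    rw [L_swap, h] at h2
    simp at h2
  · have h2 := hz p q h1
    exact h2.ne' h

theorem ne_of_L {p q r : ι} (h : L (v p) (v q) (v r) ≠ 0) : p ≠ q ∧ q ≠ r ∧ r ≠ p := by
  refine ⟨?_, ?_, ?_⟩
  · rintro rfl
    exact h (L_self _ _)
  · rintro rfl
    exact h (L_right _ _)
  · rintro rfl
    exact h (L_left _ _)

theorem mem_hull_Ch {w z : ℂ} (hw : Off v w) (hz : z ∈ Ch v w) {p q r : ι}
    (h : L (v p) (v q) (v r) ≠ 0) :
    z ∈ convexHull ℝ {v p, v q, v r} ↔ w ∈ convexHull ℝ {v p, v q, v r} := by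
  obtain ⟨h1, h2, h3⟩ := ne_of_L h
  have hz' := Off_of_mem hw hz
  rw [mem_hull_iff h (hz' _ _ h1) (hz' _ _ h2) (hz' _ _ h3),
    mem_hull_iff h (hw _ _ h1) (hw _ _ h2) (hw _ _ h3)]
  simp only [Ch_iff hw hz]

/-- The lines are null sets. -/
theorem null_line {a b : ℂ} (hab : a ≠ b) : volume {z | L a b z = 0} = 0 := by
  let φ : ℂ →ₗ[ℝ] ℝ :=
    (b.re - a.re) • Complex.imLm - (b.im - a.im) • Complex.reLm
  have hφ : ∀ w, φ w = (b.re - a.re) * w.im - (b.im - a.im) * w.re := fun w => rfl
  have h1 : {z | L a b z = 0} = (fun z => z + (-a)) ⁻¹' (LinearMap.ker φ : Set ℂ) := by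
    ext z
    simp only [mem_ofPred_eq, mem_preimage, SetLike.mem_coe, LinearMap.mem_ker, hφ, L,
      Complex.add_im, Complex.add_re, Complex.neg_re, Complex.neg_im]
    constructor <;> intro h <;> linarith
  rw [h1, measure_preimage_add_right]
  refine Measure.addHaar_submodule _ _ ?_
  intro h
  have h2 : (⟨-(b.im - a.im), b.re - a.re⟩ : ℂ) ∈ LinearMap.ker φ := by rw [h]; trivial
  rw [LinearMap.mem_ker, hφ] at h2
  simp only at h2
  apply hab
  have h3 : b.re - a.re = 0 := by nlinarith [sq_nonneg (b.re - a.re), sq_nonneg (b.im - a.im)]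
  have h4 : b.im - a.im = 0 := by nlinarith [sq_nonneg (b.re - a.re), sq_nonneg (b.im - a.im)]
  exact Complex.ext (by linarith) (by linarith)

theorem ae_off [Finite ι] (hv : Function.Injective v) : ∀ᵐ z : ℂ, Off v z := by
  have := Fintype.ofFinite ι
  unfold Off
  rw [ae_all_iff]
  intro p
  rw [ae_all_iff]
  intro q
  by_cases hpq : p = q
  · exact Eventually.of_forall fun z h => absurd hpq h
  · have h1 : volume {z | L (v p) (v q) z = 0} = 0 := null_line fun h => hpq (hv h)
    have h2 : ∀ᵐ z : ℂ, L (v p) (v q) z ≠ 0 := by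
      rw [ae_iff]
      simpa using h1
    filter_upwards [h2] with z hz _
    exact hz

variable (v u)

/-- A bounded piece of the chamber. -/
def B (c : C) : Set ℂ := Ch v (u c) ∩ Metric.ball (u c) 1

theorem isOpen_B [Finite ι] (c : C) : IsOpen (B v u c) := (isOpen_Ch v _).inter Metric.isOpen_ball

theorem B_pos [Finite ι] (c : C) : 0 < volume.real (B v u c) := by
  have h1 : 0 < volume (B v u c) := (isOpen_B v u c).measure_pos volume
    ⟨u c, mem_Ch_self v _, Metric.mem_ball_self one_pos⟩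
  have h2 : volume (B v u c) < ⊤ := lt_of_le_of_lt (measure_mono inter_subset_right)
    measure_ball_lt_top
  exact ENNReal.toReal_pos h1.ne' h2.ne

/-- Evaluation on the piece. -/
noncomputable def ev (c : C) : SignedMeasure ℂ →ₗ[ℝ] ℝ where
  toFun μ := μ (B v u c)
  map_add' μ ν := by simp
  map_smul' t μ := by simp

theorem ev_apply (c : C) (μ : SignedMeasure ℂ) : ev v u c μ = μ (B v u c) := rfl

variable {v u}

theorem tri_apply (a b c : ℂ) {A : Set ℂ} (hA : MeasurableSet A) :
    tri a b c A = volume.real (A ∩ convexHull ℝ {a, b, c}) := by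
  unfold tri
  rw [Measure.toSignedMeasure_apply_measurable hA, Measure.real, Measure.restrict_apply hA]
  rfl

open Classical in
theorem ev_tri [Finite ι] (hoff : ∀ c, Off v (u c)) (c : C) {p q r : ι}
    (h : L (v p) (v q) (v r) ≠ 0) :
    ev v u c (tri (v p) (v q) (v r)) =
      if u c ∈ convexHull ℝ {v p, v q, v r} then volume.real (B v u c) else 0 := by
  rw [ev_apply, tri_apply _ _ _ (isOpen_B v u c).measurableSet]
  split_ifs with hc
  · congr 1
    refine inter_eq_left.2 fun z hz => ?_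
    exact (mem_hull_Ch (hoff c) hz.1 h).2 hc
  · have : B v u c ∩ convexHull ℝ {v p, v q, v r} = ∅ := by
      ext z
      simp only [mem_inter_iff, mem_empty_iff_false, iff_false, not_and]
      intro hz hz2
      exact hc ((mem_hull_Ch (hoff c) hz.1 h).1 hz2)
    rw [this]
    simp

/-- The covering hypothesis. -/
def Cover (v : ι → ℂ) (u : C → ℂ) : Prop :=
  ∀ z, Off v z → (∀ p q r, L (v p) (v q) (v r) ≠ 0 → z ∉ convexHull ℝ {v p, v q, v r}) ∨
    ∃ c, z ∈ Ch v (u c)

open Classical in
theorem tri_formula [Finite ι] [Fintype C] (hv : Function.Injective v)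
    (hoff : ∀ c, Off v (u c)) (hinj : ∀ c c', u c' ∈ Ch v (u c) → c = c')
    (hcov : Cover v u) {p q r : ι} (h : L (v p) (v q) (v r) ≠ 0) {A : Set ℂ}
    (hA : MeasurableSet A) :
    tri (v p) (v q) (v r) A = ∑ c, (ev v u c (tri (v p) (v q) (v r)) / volume.real (B v u c)) *
      volume.real (A ∩ Ch v (u c)) := by
  have h1 : ∀ c, (ev v u c (tri (v p) (v q) (v r)) / volume.real (B v u c)) *
      volume.real (A ∩ Ch v (u c)) =
      if u c ∈ convexHull ℝ {v p, v q, v r} then volume.real (A ∩ Ch v (u c)) else 0 := by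
    intro c
    rw [ev_tri hoff c h]
    split_ifs
    · rw [div_self (B_pos v u c).ne', one_mul]
    · rw [zero_div, zero_mul]
  rw [Finset.sum_congr rfl fun c _ => h1 c, ← Finset.sum_filter, tri_apply _ _ _ hA]
  have hfin : volume (convexHull ℝ {v p, v q, v r}) ≠ ⊤ :=
    ((Set.toFinite {v p, v q, v r}).isCompact_convexHull ℝ).measure_lt_top.ne
  have hfin2 : ∀ c ∈ Finset.univ.filter (fun c => u c ∈ convexHull ℝ {v p, v q, v r}),
      volume (A ∩ Ch v (u c)) ≠ ⊤ := by
    intro c hc
    refine ne_top_of_le_ne_top hfin (measure_mono fun z hz => ?_)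
    exact (mem_hull_Ch (hoff c) hz.2 h).2 (by simpa using hc)
  rw [← measureReal_biUnion_finset (h := hfin2)]
  · refine measureReal_congr (Filter.eventuallyEq_set.2 ?_)
    filter_upwards [ae_off hv] with z hz
    simp only [mem_inter_iff, mem_iUnion, Finset.mem_filter, Finset.mem_univ, true_and,
      exists_prop]
    constructor
    · rintro ⟨hzA, hzT⟩
      rcases hcov z hz with h2 | ⟨c, hc⟩
      · exact absurd hzT (h2 p q r h)
      · exact ⟨c, (mem_hull_Ch (hoff c) hc h).1 hzT, hzA, hc⟩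
    · rintro ⟨c, hc, hzA, hzc⟩
      exact ⟨hzA, (mem_hull_Ch (hoff c) hzc h).2 hc⟩
  · intro c _ c' _ hcc
    refine disjoint_left.2 fun z hz hz' => hcc (hinj c c' ?_)
    intro a b hab
    exact (Ch_iff (hoff c') hz'.2 a b).1 (hz.2 a b hab)
  · intro c _
    exact hA.inter (isOpen_Ch v _).measurableSet

theorem formula [Finite ι] [Fintype C] (hv : Function.Injective v)
    (hoff : ∀ c, Off v (u c)) (hinj : ∀ c c', u c' ∈ Ch v (u c) → c = c')
    (hcov : Cover v u) {μ : SignedMeasure ℂ} (hμ : μ ∈ polySpace (range v)) {A : Set ℂ}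
    (hA : MeasurableSet A) :
    μ A = ∑ c, (ev v u c μ / volume.real (B v u c)) * volume.real (A ∩ Ch v (u c)) := by
  unfold polySpace at hμ
  induction hμ using Submodule.span_induction with
  | mem x hx =>
    obtain ⟨_, ⟨p, rfl⟩, _, ⟨q, rfl⟩, _, ⟨r, rfl⟩, h1, rfl⟩ := hx
    exact tri_formula hv hoff hinj hcov (L_ne_of h1) hA
  | zero => simp
  | add x y _ _ hx hy =>
    rw [add_apply, hx, hy, ← Finset.sum_add_distrib]
    refine Finset.sum_congr rfl fun c _ => ?_
    rw [map_add]
    ring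
  | smul t x _ hx =>
    rw [smul_apply, hx, smul_eq_mul, Finset.mul_sum]
    refine Finset.sum_congr rfl fun c _ => ?_
    rw [map_smul, smul_eq_mul]
    ring

theorem posCone_eq [Finite ι] [Fintype C] (hv : Function.Injective v)
    (hoff : ∀ c, Off v (u c)) (hinj : ∀ c c', u c' ∈ Ch v (u c) → c = c')
    (hcov : Cover v u) : posCone (range v) = cone (polySpace (range v)) (ev v u) := by
  ext μ
  constructor
  · rintro ⟨hM, h0⟩
    refine ⟨hM, fun c => ?_⟩
    have h1 := h0 (B v u c) (isOpen_B v u c).measurableSet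
    simpa [ev_apply] using h1
  · rintro ⟨hM, h0⟩
    refine ⟨hM, fun A hA => ?_⟩
    rw [formula hv hoff hinj hcov hM hA]
    simp only [FunLike.coe_zero, Pi.zero_apply]
    exact Finset.sum_nonneg fun c _ => mul_nonneg (div_nonneg (h0 c) (B_pos v u c).le)
      measureReal_nonneg

end

end Pool.Agent.Q196.PM
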