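import Mathlib
import Pool.Agent.Q196.PM.Meas

set_option autoImplicit false

/-! Integer configurations of six points. -/

namespace Pool.Agent.Q196.PM

open MeasureTheory Set Filter Topology

/-- Integer points. -/
noncomputable def pt (a : ℤ × ℤ) : ℂ := ⟨a.1, a.2⟩

/-- Integer orientation. -/
def LZ (a b c : ℤ × ℤ) : ℤ := (b.1 - a.1) * (c.2 - a.2) - (b.2 - a.2) * (c.1 - a.1)

theorem L_pt (a b c : ℤ × ℤ) : L (pt a) (pt b) (pt c) = (LZ a b c : ℝ) := by
  simp only [L, LZ, pt]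
  push_cast
  ring

theorem L_form (a b : ℤ × ℤ) (z : ℂ) : L (pt a) (pt b) z =
    ((b.1 - a.1 : ℤ) : ℝ) * z.im - ((b.2 - a.2 : ℤ) : ℝ) * z.re +
      ((b.2 * a.1 - b.1 * a.2 : ℤ) : ℝ) := by
  simp only [L, pt]
  push_cast
  ring

/-- Same sign. -/
def Sg (m : ℤ) (d : ℝ) : Prop := (0 < m ∧ 0 < d) ∨ (m < 0 ∧ d < 0)

theorem forall_pairs {Q : Fin 6 → Fin 6 → Prop} (h01 : Q 0 1) (h02 : Q 0 2) (h03 : Q 0 3)
    (h04 : Q 0 4) (h05 : Q 0 5) (h12 : Q 1 2) (h13 : Q 1 3) (h14 : Q 1 4) (h15 : Q 1 5)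
    (h23 : Q 2 3) (h24 : Q 2 4) (h25 : Q 2 5) (h34 : Q 3 4) (h35 : Q 3 5) (h45 : Q 4 5) :
    ∀ p q : Fin 6, p < q → Q p q := by
  intro p q h
  fin_cases p <;> fin_cases q <;> first | assumption | exact absurd h (by decide)

section

variable {C : Type*} {P : Fin 6 → ℤ × ℤ} {U : C → ℤ × ℤ}

theorem mem_Ch_of {c : C} {z : ℂ}
    (h : ∀ p q : Fin 6, p < q → Sg (LZ (P p) (P q) (U c)) (L (pt (P p)) (pt (P q)) z)) :
    z ∈ Ch (fun p => pt (P p)) (pt (U c)) := by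
  intro p q hpq
  simp only at hpq ⊢
  rcases lt_trichotomy p q with h1 | h1 | h1
  · rw [L_pt] at hpq
    rcases h p q h1 with h2 | h2
    · exact h2.2
    · have h3 : (0 : ℤ) < LZ (P p) (P q) (U c) := by exact_mod_cast hpq
      exact absurd h3 (not_lt.2 h2.1.le)
  · subst h1
    rw [L_self] at hpq
    exact absurd hpq (lt_irrefl _)
  · rw [L_swap, L_pt] at hpq
    rw [L_swap]
    rcases h q p h1 with h2 | h2
    · have h3 : (0 : ℝ) < (LZ (P q) (P p) (U c) : ℝ) := by exact_mod_cast h2.1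
      linarith
    · linarith [h2.2]

theorem off_of (h : ∀ p q c, p ≠ q → LZ (P p) (P q) (U c) ≠ 0) (c : C) :
    Off (fun p => pt (P p)) (pt (U c)) := by
  intro p q hpq
  simp only
  rw [L_pt]
  exact_mod_cast h p q c hpq

theorem inj_of (h : ∀ c c', (∀ p q, 0 < LZ (P p) (P q) (U c) → 0 < LZ (P p) (P q) (U c')) →
    c = c') (c c' : C) (hc : pt (U c') ∈ Ch (fun p => pt (P p)) (pt (U c))) : c = c' := by
  refine h c c' fun p q hpq => ?_
  have h1 := hc p q (by simp only; rw [L_pt]; exact_mod_cast hpq)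
  simp only at h1
  rw [L_pt] at h1
  exact_mod_cast h1

theorem pt_inj {a b : ℤ × ℤ} (h : pt a = pt b) : a = b := by
  have h1 := congrArg Complex.re h
  have h2 := congrArg Complex.im h
  simp only [pt] at h1 h2
  exact Prod.ext (by exact_mod_cast h1) (by exact_mod_cast h2)

theorem injective_of (h : ∀ p q, P p = P q → p = q) : Function.Injective fun p => pt (P p) :=
  fun p q hpq => h p q (pt_inj hpq)

/-- Covering. -/
theorem cover_of (hhull : ∀ i p : Fin 6, 0 ≤ LZ (P i) (P (i + 1)) (P p))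
    (htree : ∀ z : ℂ, (∀ i : Fin 6, 0 < L (pt (P i)) (pt (P (i + 1))) z) →
      Off (fun p => pt (P p)) z →
      ∃ c, ∀ p q : Fin 6, p < q → Sg (LZ (P p) (P q) (U c)) (L (pt (P p)) (pt (P q)) z)) :
    Cover (fun p => pt (P p)) (fun c => pt (U c)) := by
  intro z hz
  by_cases hin : ∀ i : Fin 6, 0 < L (pt (P i)) (pt (P (i + 1))) z
  · obtain ⟨c, hc⟩ := htree z hin hz
    exact Or.inr ⟨c, mem_Ch_of hc⟩
  · left
    intro p q r _ hzT
    apply hin
    intro i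
    have h0 : ∀ j, 0 ≤ L (pt (P i)) (pt (P (i + 1))) (pt (P j)) := by
      intro j
      rw [L_pt]
      exact_mod_cast hhull i j
    have h1 : 0 ≤ L (pt (P i)) (pt (P (i + 1))) z := hull_subset (h0 p) (h0 q) (h0 r) hzT
    have h2 : L (pt (P i)) (pt (P (i + 1))) z ≠ 0 := by
      have h3 : ∀ i : Fin 6, i ≠ i + 1 := by decide
      exact hz i (i + 1) (h3 i)
    exact lt_of_le_of_ne h1 h2.symm

end

end Pool.Agent.Q196.PM
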