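import Mathlib
import Pool.Agent.Q196.PM.Comb

set_option autoImplicit false
set_option maxRecDepth 4000
set_option linter.unusedVariables false

/-! The hexagon B. -/

namespace Pool.Agent.Q196.PM

/-- The points of hexagon B. -/
def PB : Fin 6 → ℤ × ℤ :=
  ![(12, 0), (12, 12), (0, 12), (-12, 0), (-12, -12), (0, -12)]

/-- Sample points of the chambers. -/
def UB : Fin 24 → ℤ × ℤ :=
  ![(4, -6), (2, -6), (-2, -8), (-6, -10), (6, -2), (3, -3), (-3, -6), (-6, -8), (-6, -3), (-8, -6), (-8, -2), (-10, -6), (8, 2), (6, 3), (3, 6), (-3, 3), (-6, 2), (2, 8), (-2, 6), (-6, 4), (10, 4), (8, 6), (6, 8), (4, 10)]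

theorem treeB (x y d01 d02 d03 d04 d05 d12 d13 d14 d15 d23 d24 d25 d34 d35 d45 : ℝ)
    (l01 : d01 = 0 * y - 12 * x + 144)
    (l02 : d02 = (-12) * y - 12 * x + 144)
    (l03 : d03 = (-24) * y - 0 * x + 0)
    (l04 : d04 = (-24) * y - (-12) * x + (-144))
    (l05 : d05 = (-12) * y - (-12) * x + (-144))
    (l12 : d12 = (-12) * y - 0 * x + 144)
    (l13 : d13 = (-24) * y - (-12) * x + 144)
    (l14 : d14 = (-24) * y - (-24) * x + 0)
    (l15 : d15 = (-12) * y - (-24) * x + (-144))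
    (l23 : d23 = (-12) * y - (-12) * x + 144)
    (l24 : d24 = (-12) * y - (-24) * x + 144)
    (l25 : d25 = 0 * y - (-24) * x + 0)
    (l34 : d34 = 0 * y - (-12) * x + 144)
    (l35 : d35 = 12 * y - (-12) * x + 144)
    (l45 : d45 = 12 * y - 0 * x + 144)
    (e01 : 0 < d01)
    (e12 : 0 < d12)
    (e23 : 0 < d23)
    (e34 : 0 < d34)
    (e45 : 0 < d45)
    (e05 : d05 < 0)
    (n02 : d02 ≠ 0)
    (n03 : d03 ≠ 0)
    (n04 : d04 ≠ 0)
    (n13 : d13 ≠ 0)
    (n14 : d14 ≠ 0)
    (n15 : d15 ≠ 0)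
    (n24 : d24 ≠ 0)
    (n25 : d25 ≠ 0)
    (n35 : d35 ≠ 0)
    : ∃ c, Sg (LZ (PB 0) (PB 1) (UB c)) d01 ∧ Sg (LZ (PB 0) (PB 2) (UB c)) d02 ∧ Sg (LZ (PB 0) (PB 3) (UB c)) d03 ∧ Sg (LZ (PB 0) (PB 4) (UB c)) d04 ∧ Sg (LZ (PB 0) (PB 5) (UB c)) d05 ∧ Sg (LZ (PB 1) (PB 2) (UB c)) d12 ∧ Sg (LZ (PB 1) (PB 3) (UB c)) d13 ∧ Sg (LZ (PB 1) (PB 4) (UB c)) d14 ∧ Sg (LZ (PB 1) (PB 5) (UB c)) d15 ∧ Sg (LZ (PB 2) (PB 3) (UB c)) d23 ∧ Sg (LZ (PB 2) (PB 4) (UB c)) d24 ∧ Sg (LZ (PB 2) (PB 5) (UB c)) d25 ∧ Sg (LZ (PB 3) (PB 4) (UB c)) d34 ∧ Sg (LZ (PB 3) (PB 5) (UB c)) d35 ∧ Sg (LZ (PB 4) (PB 5) (UB c)) d45 := by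
  rcases lt_or_gt_of_ne n02 with h02 | h02
  · rcases lt_or_gt_of_ne n03 with h03 | h03
    · rcases lt_or_gt_of_ne n04 with h04 | h04
      · rcases lt_or_gt_of_ne n13 with h13 | h13
        · rcases lt_or_gt_of_ne n14 with h14 | h14
          · rcases lt_or_gt_of_ne n15 with h15 | h15
            · rcases lt_or_gt_of_ne n24 with h24 | h24
              · exfalso; linarith only [l24, l12, l02, h24, e12, h02]
              · rcases lt_or_gt_of_ne n25 with h25 | h25
                · exfalso; linarith only [l25, l12, l02, h25, e12, h02]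
                · rcases lt_or_gt_of_ne n35 with h35 | h35
                  · exfalso; linarith only [l35, l02, h35, h02]
                  · exact ⟨23, .inl ⟨by decide, e01⟩, .inr ⟨by decide, h02⟩, .inr ⟨by decide, h03⟩, .inr ⟨by decide, h04⟩, .inr ⟨by decide, e05⟩, .inl ⟨by decide, e12⟩, .inr ⟨by decide, h13⟩, .inr ⟨by decide, h14⟩, .inr ⟨by decide, h15⟩, .inl ⟨by decide, e23⟩, .inl ⟨by decide, h24⟩, .inl ⟨by decide, h25⟩, .inl ⟨by decide, e34⟩, .inl ⟨by decide, h35⟩, .inl ⟨by decide, e45⟩⟩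
            · exfalso; linarith only [l15, l01, l13, h15, e01, h13]
          · exfalso; linarith only [l14, l01, l13, h14, e01, h13]
        · rcases lt_or_gt_of_ne n14 with h14 | h14
          · rcases lt_or_gt_of_ne n15 with h15 | h15
            · rcases lt_or_gt_of_ne n24 with h24 | h24
              · exfalso; linarith only [l24, l12, l02, h24, e12, h02]
              · rcases lt_or_gt_of_ne n25 with h25 | h25
                · exfalso; linarith only [l25, l12, l02, h25, e12, h02]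
                · rcases lt_or_gt_of_ne n35 with h35 | h35
                  · exfalso; linarith only [l35, l02, h35, h02]
                  · exact ⟨22, .inl ⟨by decide, e01⟩, .inr ⟨by decide, h02⟩, .inr ⟨by decide, h03⟩, .inr ⟨by decide, h04⟩, .inr ⟨by decide, e05⟩, .inl ⟨by decide, e12⟩, .inl ⟨by decide, h13⟩, .inr ⟨by decide, h14⟩, .inr ⟨by decide, h15⟩, .inl ⟨by decide, e23⟩, .inl ⟨by decide, h24⟩, .inl ⟨by decide, h25⟩, .inl ⟨by decide, e34⟩, .inl ⟨by decide, h35⟩, .inl ⟨by decide, e45⟩⟩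
            · exfalso; linarith only [l15, l01, l14, h15, e01, h14]
          · rcases lt_or_gt_of_ne n15 with h15 | h15
            · rcases lt_or_gt_of_ne n24 with h24 | h24
              · exfalso; linarith only [l24, l12, l02, h24, e12, h02]
              · rcases lt_or_gt_of_ne n25 with h25 | h25
                · exfalso; linarith only [l25, l12, l02, h25, e12, h02]
                · rcases lt_or_gt_of_ne n35 with h35 | h35
                  · exfalso; linarith only [l35, l02, h35, h02]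
                  · exact ⟨21, .inl ⟨by decide, e01⟩, .inr ⟨by decide, h02⟩, .inr ⟨by decide, h03⟩, .inr ⟨by decide, h04⟩, .inr ⟨by decide, e05⟩, .inl ⟨by decide, e12⟩, .inl ⟨by decide, h13⟩, .inl ⟨by decide, h14⟩, .inr ⟨by decide, h15⟩, .inl ⟨by decide, e23⟩, .inl ⟨by decide, h24⟩, .inl ⟨by decide, h25⟩, .inl ⟨by decide, e34⟩, .inl ⟨by decide, h35⟩, .inl ⟨by decide, e45⟩⟩
            · rcases lt_or_gt_of_ne n24 with h24 | h24
              · exfalso; linarith only [l24, l15, h24, h15]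
              · rcases lt_or_gt_of_ne n25 with h25 | h25
                · exfalso; linarith only [l25, l12, l02, h25, e12, h02]
                · rcases lt_or_gt_of_ne n35 with h35 | h35
                  · exfalso; linarith only [l35, l02, h35, h02]
                  · exact ⟨20, .inl ⟨by decide, e01⟩, .inr ⟨by decide, h02⟩, .inr ⟨by decide, h03⟩, .inr ⟨by decide, h04⟩, .inr ⟨by decide, e05⟩, .inl ⟨by decide, e12⟩, .inl ⟨by decide, h13⟩, .inl ⟨by decide, h14⟩, .inl ⟨by decide, h15⟩, .inl ⟨by decide, e23⟩, .inl ⟨by decide, h24⟩, .inl ⟨by decide, h25⟩, .inl ⟨by decide, e34⟩, .inl ⟨by decide, h35⟩, .inl ⟨by decide, e45⟩⟩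
      · exfalso; linarith only [l04, l01, l02, h04, e01, h02]
    · exfalso; linarith only [l03, l01, l02, h03, e01, h02]
  · rcases lt_or_gt_of_ne n03 with h03 | h03
    · rcases lt_or_gt_of_ne n04 with h04 | h04
      · rcases lt_or_gt_of_ne n13 with h13 | h13
        · rcases lt_or_gt_of_ne n14 with h14 | h14
          · rcases lt_or_gt_of_ne n15 with h15 | h15
            · rcases lt_or_gt_of_ne n24 with h24 | h24
              · rcases lt_or_gt_of_ne n25 with h25 | h25
                · rcases lt_or_gt_of_ne n35 with h35 | h35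
                  · exfalso; linarith only [l35, l23, l03, h35, e23, h03]
                  · exact ⟨19, .inl ⟨by decide, e01⟩, .inl ⟨by decide, h02⟩, .inr ⟨by decide, h03⟩, .inr ⟨by decide, h04⟩, .inr ⟨by decide, e05⟩, .inl ⟨by decide, e12⟩, .inr ⟨by decide, h13⟩, .inr ⟨by decide, h14⟩, .inr ⟨by decide, h15⟩, .inl ⟨by decide, e23⟩, .inr ⟨by decide, h24⟩, .inr ⟨by decide, h25⟩, .inl ⟨by decide, e34⟩, .inl ⟨by decide, h35⟩, .inl ⟨by decide, e45⟩⟩
                · exfalso; linarith only [l25, l12, l24, h25, e12, h24]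
              · rcases lt_or_gt_of_ne n25 with h25 | h25
                · rcases lt_or_gt_of_ne n35 with h35 | h35
                  · exfalso; linarith only [l35, l23, l03, h35, e23, h03]
                  · exact ⟨18, .inl ⟨by decide, e01⟩, .inl ⟨by decide, h02⟩, .inr ⟨by decide, h03⟩, .inr ⟨by decide, h04⟩, .inr ⟨by decide, e05⟩, .inl ⟨by decide, e12⟩, .inr ⟨by decide, h13⟩, .inr ⟨by decide, h14⟩, .inr ⟨by decide, h15⟩, .inl ⟨by decide, e23⟩, .inl ⟨by decide, h24⟩, .inr ⟨by decide, h25⟩, .inl ⟨by decide, e34⟩, .inl ⟨by decide, h35⟩, .inl ⟨by decide, e45⟩⟩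
                · rcases lt_or_gt_of_ne n35 with h35 | h35
                  · exfalso; linarith only [l35, l23, l03, h35, e23, h03]
                  · exact ⟨17, .inl ⟨by decide, e01⟩, .inl ⟨by decide, h02⟩, .inr ⟨by decide, h03⟩, .inr ⟨by decide, h04⟩, .inr ⟨by decide, e05⟩, .inl ⟨by decide, e12⟩, .inr ⟨by decide, h13⟩, .inr ⟨by decide, h14⟩, .inr ⟨by decide, h15⟩, .inl ⟨by decide, e23⟩, .inl ⟨by decide, h24⟩, .inl ⟨by decide, h25⟩, .inl ⟨by decide, e34⟩, .inl ⟨by decide, h35⟩, .inl ⟨by decide, e45⟩⟩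
            · exfalso; linarith only [l15, l01, l13, h15, e01, h13]
          · exfalso; linarith only [l14, l01, l13, h14, e01, h13]
        · rcases lt_or_gt_of_ne n14 with h14 | h14
          · rcases lt_or_gt_of_ne n15 with h15 | h15
            · rcases lt_or_gt_of_ne n24 with h24 | h24
              · rcases lt_or_gt_of_ne n25 with h25 | h25
                · rcases lt_or_gt_of_ne n35 with h35 | h35
                  · exfalso; linarith only [l35, l23, l03, h35, e23, h03]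
                  · exact ⟨16, .inl ⟨by decide, e01⟩, .inl ⟨by decide, h02⟩, .inr ⟨by decide, h03⟩, .inr ⟨by decide, h04⟩, .inr ⟨by decide, e05⟩, .inl ⟨by decide, e12⟩, .inl ⟨by decide, h13⟩, .inr ⟨by decide, h14⟩, .inr ⟨by decide, h15⟩, .inl ⟨by decide, e23⟩, .inr ⟨by decide, h24⟩, .inr ⟨by decide, h25⟩, .inl ⟨by decide, e34⟩, .inl ⟨by decide, h35⟩, .inl ⟨by decide, e45⟩⟩
                · exfalso; linarith only [l25, l12, l24, h25, e12, h24]
              · rcases lt_or_gt_of_ne n25 with h25 | h25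
                · rcases lt_or_gt_of_ne n35 with h35 | h35
                  · exfalso; linarith only [l35, l23, l03, h35, e23, h03]
                  · exact ⟨15, .inl ⟨by decide, e01⟩, .inl ⟨by decide, h02⟩, .inr ⟨by decide, h03⟩, .inr ⟨by decide, h04⟩, .inr ⟨by decide, e05⟩, .inl ⟨by decide, e12⟩, .inl ⟨by decide, h13⟩, .inr ⟨by decide, h14⟩, .inr ⟨by decide, h15⟩, .inl ⟨by decide, e23⟩, .inl ⟨by decide, h24⟩, .inr ⟨by decide, h25⟩, .inl ⟨by decide, e34⟩, .inl ⟨by decide, h35⟩, .inl ⟨by decide, e45⟩⟩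
                · rcases lt_or_gt_of_ne n35 with h35 | h35
                  · exfalso; linarith only [l35, l23, l03, h35, e23, h03]
                  · exact ⟨14, .inl ⟨by decide, e01⟩, .inl ⟨by decide, h02⟩, .inr ⟨by decide, h03⟩, .inr ⟨by decide, h04⟩, .inr ⟨by decide, e05⟩, .inl ⟨by decide, e12⟩, .inl ⟨by decide, h13⟩, .inr ⟨by decide, h14⟩, .inr ⟨by decide, h15⟩, .inl ⟨by decide, e23⟩, .inl ⟨by decide, h24⟩, .inl ⟨by decide, h25⟩, .inl ⟨by decide, e34⟩, .inl ⟨by decide, h35⟩, .inl ⟨by decide, e45⟩⟩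
            · exfalso; linarith only [l15, l01, l14, h15, e01, h14]
          · rcases lt_or_gt_of_ne n15 with h15 | h15
            · rcases lt_or_gt_of_ne n24 with h24 | h24
              · exfalso; linarith only [l24, l34, l14, h24, e34, h14]
              · rcases lt_or_gt_of_ne n25 with h25 | h25
                · exfalso; linarith only [l25, l03, l14, h25, h03, h14]
                · rcases lt_or_gt_of_ne n35 with h35 | h35
                  · exfalso; linarith only [l35, l23, l03, h35, e23, h03]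
                  · exact ⟨13, .inl ⟨by decide, e01⟩, .inl ⟨by decide, h02⟩, .inr ⟨by decide, h03⟩, .inr ⟨by decide, h04⟩, .inr ⟨by decide, e05⟩, .inl ⟨by decide, e12⟩, .inl ⟨by decide, h13⟩, .inl ⟨by decide, h14⟩, .inr ⟨by decide, h15⟩, .inl ⟨by decide, e23⟩, .inl ⟨by decide, h24⟩, .inl ⟨by decide, h25⟩, .inl ⟨by decide, e34⟩, .inl ⟨by decide, h35⟩, .inl ⟨by decide, e45⟩⟩
            · rcases lt_or_gt_of_ne n24 with h24 | h24
              · exfalso; linarith only [l24, l15, h24, h15]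
              · rcases lt_or_gt_of_ne n25 with h25 | h25
                · exfalso; linarith only [l25, l45, l15, h25, e45, h15]
                · rcases lt_or_gt_of_ne n35 with h35 | h35
                  · exfalso; linarith only [l35, l23, l03, h35, e23, h03]
                  · exact ⟨12, .inl ⟨by decide, e01⟩, .inl ⟨by decide, h02⟩, .inr ⟨by decide, h03⟩, .inr ⟨by decide, h04⟩, .inr ⟨by decide, e05⟩, .inl ⟨by decide, e12⟩, .inl ⟨by decide, h13⟩, .inl ⟨by decide, h14⟩, .inl ⟨by decide, h15⟩, .inl ⟨by decide, e23⟩, .inl ⟨by decide, h24⟩, .inl ⟨by decide, h25⟩, .inl ⟨by decide, e34⟩, .inl ⟨by decide, h35⟩, .inl ⟨by decide, e45⟩⟩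
      · exfalso; linarith only [l04, l01, l03, h04, e01, h03]
    · rcases lt_or_gt_of_ne n04 with h04 | h04
      · rcases lt_or_gt_of_ne n13 with h13 | h13
        · exfalso; linarith only [l13, l23, l03, h13, e23, h03]
        · rcases lt_or_gt_of_ne n14 with h14 | h14
          · rcases lt_or_gt_of_ne n15 with h15 | h15
            · rcases lt_or_gt_of_ne n24 with h24 | h24
              · rcases lt_or_gt_of_ne n25 with h25 | h25
                · rcases lt_or_gt_of_ne n35 with h35 | h35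
                  · exact ⟨11, .inl ⟨by decide, e01⟩, .inl ⟨by decide, h02⟩, .inl ⟨by decide, h03⟩, .inr ⟨by decide, h04⟩, .inr ⟨by decide, e05⟩, .inl ⟨by decide, e12⟩, .inl ⟨by decide, h13⟩, .inr ⟨by decide, h14⟩, .inr ⟨by decide, h15⟩, .inl ⟨by decide, e23⟩, .inr ⟨by decide, h24⟩, .inr ⟨by decide, h25⟩, .inl ⟨by decide, e34⟩, .inr ⟨by decide, h35⟩, .inl ⟨by decide, e45⟩⟩
                  · exact ⟨10, .inl ⟨by decide, e01⟩, .inl ⟨by decide, h02⟩, .inl ⟨by decide, h03⟩, .inr ⟨by decide, h04⟩, .inr ⟨by decide, e05⟩, .inl ⟨by decide, e12⟩, .inl ⟨by decide, h13⟩, .inr ⟨by decide, h14⟩, .inr ⟨by decide, h15⟩, .inl ⟨by decide, e23⟩, .inr ⟨by decide, h24⟩, .inr ⟨by decide, h25⟩, .inl ⟨by decide, e34⟩, .inl ⟨by decide, h35⟩, .inl ⟨by decide, e45⟩⟩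
                · exfalso; linarith only [l25, l12, l24, h25, e12, h24]
              · rcases lt_or_gt_of_ne n25 with h25 | h25
                · rcases lt_or_gt_of_ne n35 with h35 | h35
                  · exact ⟨9, .inl ⟨by decide, e01⟩, .inl ⟨by decide, h02⟩, .inl ⟨by decide, h03⟩, .inr ⟨by decide, h04⟩, .inr ⟨by decide, e05⟩, .inl ⟨by decide, e12⟩, .inl ⟨by decide, h13⟩, .inr ⟨by decide, h14⟩, .inr ⟨by decide, h15⟩, .inl ⟨by decide, e23⟩, .inl ⟨by decide, h24⟩, .inr ⟨by decide, h25⟩, .inl ⟨by decide, e34⟩, .inr ⟨by decide, h35⟩, .inl ⟨by decide, e45⟩⟩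
                  · exact ⟨8, .inl ⟨by decide, e01⟩, .inl ⟨by decide, h02⟩, .inl ⟨by decide, h03⟩, .inr ⟨by decide, h04⟩, .inr ⟨by decide, e05⟩, .inl ⟨by decide, e12⟩, .inl ⟨by decide, h13⟩, .inr ⟨by decide, h14⟩, .inr ⟨by decide, h15⟩, .inl ⟨by decide, e23⟩, .inl ⟨by decide, h24⟩, .inr ⟨by decide, h25⟩, .inl ⟨by decide, e34⟩, .inl ⟨by decide, h35⟩, .inl ⟨by decide, e45⟩⟩
                · exfalso; linarith only [l25, l03, l14, h25, h03, h14]
            · exfalso; linarith only [l15, l01, l14, h15, e01, h14]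
          · rcases lt_or_gt_of_ne n15 with h15 | h15
            · rcases lt_or_gt_of_ne n24 with h24 | h24
              · exfalso; linarith only [l24, l34, l14, h24, e34, h14]
              · rcases lt_or_gt_of_ne n25 with h25 | h25
                · rcases lt_or_gt_of_ne n35 with h35 | h35
                  · exact ⟨7, .inl ⟨by decide, e01⟩, .inl ⟨by decide, h02⟩, .inl ⟨by decide, h03⟩, .inr ⟨by decide, h04⟩, .inr ⟨by decide, e05⟩, .inl ⟨by decide, e12⟩, .inl ⟨by decide, h13⟩, .inl ⟨by decide, h14⟩, .inr ⟨by decide, h15⟩, .inl ⟨by decide, e23⟩, .inl ⟨by decide, h24⟩, .inr ⟨by decide, h25⟩, .inl ⟨by decide, e34⟩, .inr ⟨by decide, h35⟩, .inl ⟨by decide, e45⟩⟩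
                  · exact ⟨6, .inl ⟨by decide, e01⟩, .inl ⟨by decide, h02⟩, .inl ⟨by decide, h03⟩, .inr ⟨by decide, h04⟩, .inr ⟨by decide, e05⟩, .inl ⟨by decide, e12⟩, .inl ⟨by decide, h13⟩, .inl ⟨by decide, h14⟩, .inr ⟨by decide, h15⟩, .inl ⟨by decide, e23⟩, .inl ⟨by decide, h24⟩, .inr ⟨by decide, h25⟩, .inl ⟨by decide, e34⟩, .inl ⟨by decide, h35⟩, .inl ⟨by decide, e45⟩⟩
                · rcases lt_or_gt_of_ne n35 with h35 | h35
                  · exfalso; linarith only [l35, l45, l25, h35, e45, h25]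
                  · exact ⟨5, .inl ⟨by decide, e01⟩, .inl ⟨by decide, h02⟩, .inl ⟨by decide, h03⟩, .inr ⟨by decide, h04⟩, .inr ⟨by decide, e05⟩, .inl ⟨by decide, e12⟩, .inl ⟨by decide, h13⟩, .inl ⟨by decide, h14⟩, .inr ⟨by decide, h15⟩, .inl ⟨by decide, e23⟩, .inl ⟨by decide, h24⟩, .inl ⟨by decide, h25⟩, .inl ⟨by decide, e34⟩, .inl ⟨by decide, h35⟩, .inl ⟨by decide, e45⟩⟩
            · rcases lt_or_gt_of_ne n24 with h24 | h24
              · exfalso; linarith only [l24, l15, h24, h15]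
              · rcases lt_or_gt_of_ne n25 with h25 | h25
                · exfalso; linarith only [l25, l45, l15, h25, e45, h15]
                · rcases lt_or_gt_of_ne n35 with h35 | h35
                  · exfalso; linarith only [l35, l45, l15, h35, e45, h15]
                  · exact ⟨4, .inl ⟨by decide, e01⟩, .inl ⟨by decide, h02⟩, .inl ⟨by decide, h03⟩, .inr ⟨by decide, h04⟩, .inr ⟨by decide, e05⟩, .inl ⟨by decide, e12⟩, .inl ⟨by decide, h13⟩, .inl ⟨by decide, h14⟩, .inl ⟨by decide, h15⟩, .inl ⟨by decide, e23⟩, .inl ⟨by decide, h24⟩, .inl ⟨by decide, h25⟩, .inl ⟨by decide, e34⟩, .inl ⟨by decide, h35⟩, .inl ⟨by decide, e45⟩⟩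
      · rcases lt_or_gt_of_ne n13 with h13 | h13
        · exfalso; linarith only [l13, l04, h13, h04]
        · rcases lt_or_gt_of_ne n14 with h14 | h14
          · exfalso; linarith only [l14, l34, l04, h14, e34, h04]
          · rcases lt_or_gt_of_ne n15 with h15 | h15
            · rcases lt_or_gt_of_ne n24 with h24 | h24
              · exfalso; linarith only [l24, l34, l04, h24, e34, h04]
              · rcases lt_or_gt_of_ne n25 with h25 | h25
                · rcases lt_or_gt_of_ne n35 with h35 | h35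
                  · exact ⟨3, .inl ⟨by decide, e01⟩, .inl ⟨by decide, h02⟩, .inl ⟨by decide, h03⟩, .inl ⟨by decide, h04⟩, .inr ⟨by decide, e05⟩, .inl ⟨by decide, e12⟩, .inl ⟨by decide, h13⟩, .inl ⟨by decide, h14⟩, .inr ⟨by decide, h15⟩, .inl ⟨by decide, e23⟩, .inl ⟨by decide, h24⟩, .inr ⟨by decide, h25⟩, .inl ⟨by decide, e34⟩, .inr ⟨by decide, h35⟩, .inl ⟨by decide, e45⟩⟩
                  · exact ⟨2, .inl ⟨by decide, e01⟩, .inl ⟨by decide, h02⟩, .inl ⟨by decide, h03⟩, .inl ⟨by decide, h04⟩, .inr ⟨by decide, e05⟩, .inl ⟨by decide, e12⟩, .inl ⟨by decide, h13⟩, .inl ⟨by decide, h14⟩, .inr ⟨by decide, h15⟩, .inl ⟨by decide, e23⟩, .inl ⟨by decide, h24⟩, .inr ⟨by decide, h25⟩, .inl ⟨by decide, e34⟩, .inl ⟨by decide, h35⟩, .inl ⟨by decide, e45⟩⟩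
                · rcases lt_or_gt_of_ne n35 with h35 | h35
                  · exfalso; linarith only [l35, l45, l25, h35, e45, h25]
                  · exact ⟨1, .inl ⟨by decide, e01⟩, .inl ⟨by decide, h02⟩, .inl ⟨by decide, h03⟩, .inl ⟨by decide, h04⟩, .inr ⟨by decide, e05⟩, .inl ⟨by decide, e12⟩, .inl ⟨by decide, h13⟩, .inl ⟨by decide, h14⟩, .inr ⟨by decide, h15⟩, .inl ⟨by decide, e23⟩, .inl ⟨by decide, h24⟩, .inl ⟨by decide, h25⟩, .inl ⟨by decide, e34⟩, .inl ⟨by decide, h35⟩, .inl ⟨by decide, e45⟩⟩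
            · rcases lt_or_gt_of_ne n24 with h24 | h24
              · exfalso; linarith only [l24, l15, h24, h15]
              · rcases lt_or_gt_of_ne n25 with h25 | h25
                · exfalso; linarith only [l25, l45, l15, h25, e45, h15]
                · rcases lt_or_gt_of_ne n35 with h35 | h35
                  · exfalso; linarith only [l35, l45, l15, h35, e45, h15]
                  · exact ⟨0, .inl ⟨by decide, e01⟩, .inl ⟨by decide, h02⟩, .inl ⟨by decide, h03⟩, .inl ⟨by decide, h04⟩, .inr ⟨by decide, e05⟩, .inl ⟨by decide, e12⟩, .inl ⟨by decide, h13⟩, .inl ⟨by decide, h14⟩, .inl ⟨by decide, h15⟩, .inl ⟨by decide, e23⟩, .inl ⟨by decide, h24⟩, .inl ⟨by decide, h25⟩, .inl ⟨by decide, e34⟩, .inl ⟨by decide, h35⟩, .inl ⟨by decide, e45⟩⟩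

theorem offB : ∀ p q c, p ≠ q → LZ (PB p) (PB q) (UB c) ≠ 0 := by decide +kernel

theorem injB : ∀ c c', (∀ p q, 0 < LZ (PB p) (PB q) (UB c) →
    0 < LZ (PB p) (PB q) (UB c')) → c = c' := by decide +kernel

theorem ptinjB : ∀ p q, PB p = PB q → p = q := by decide +kernel

theorem hullB : ∀ i p : Fin 6, 0 ≤ LZ (PB i) (PB (i + 1)) (PB p) := by decide +kernel

theorem coverB : Cover (fun p => pt (PB p)) (fun c => pt (UB c)) := by
  refine cover_of hullB fun z he hoff => ?_
  have v0 : PB 0 = (12, 0) := rfl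
  have v1 : PB 1 = (12, 12) := rfl
  have v2 : PB 2 = (0, 12) := rfl
  have v3 : PB 3 = (-12, 0) := rfl
  have v4 : PB 4 = (-12, -12) := rfl
  have v5 : PB 5 = (0, -12) := rfl
  have l01 : L (pt (PB 0)) (pt (PB 1)) z = 0 * z.im - 12 * z.re + 144 := by
    rw [L_form, v0, v1]; norm_num
  have l02 : L (pt (PB 0)) (pt (PB 2)) z = (-12) * z.im - 12 * z.re + 144 := by
    rw [L_form, v0, v2]; norm_num
  have l03 : L (pt (PB 0)) (pt (PB 3)) z = (-24) * z.im - 0 * z.re + 0 := by
    rw [L_form, v0, v3]; norm_num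
  have l04 : L (pt (PB 0)) (pt (PB 4)) z = (-24) * z.im - (-12) * z.re + (-144) := by
    rw [L_form, v0, v4]; norm_num
  have l05 : L (pt (PB 0)) (pt (PB 5)) z = (-12) * z.im - (-12) * z.re + (-144) := by
    rw [L_form, v0, v5]; norm_num
  have l12 : L (pt (PB 1)) (pt (PB 2)) z = (-12) * z.im - 0 * z.re + 144 := by
    rw [L_form, v1, v2]; norm_num
  have l13 : L (pt (PB 1)) (pt (PB 3)) z = (-24) * z.im - (-12) * z.re + 144 := by
    rw [L_form, v1, v3]; norm_num
  have l14 : L (pt (PB 1)) (pt (PB 4)) z = (-24) * z.im - (-24) * z.re + 0 := by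
    rw [L_form, v1, v4]; norm_num
  have l15 : L (pt (PB 1)) (pt (PB 5)) z = (-12) * z.im - (-24) * z.re + (-144) := by
    rw [L_form, v1, v5]; norm_num
  have l23 : L (pt (PB 2)) (pt (PB 3)) z = (-12) * z.im - (-12) * z.re + 144 := by
    rw [L_form, v2, v3]; norm_num
  have l24 : L (pt (PB 2)) (pt (PB 4)) z = (-12) * z.im - (-24) * z.re + 144 := by
    rw [L_form, v2, v4]; norm_num
  have l25 : L (pt (PB 2)) (pt (PB 5)) z = 0 * z.im - (-24) * z.re + 0 := by
    rw [L_form, v2, v5]; norm_num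
  have l34 : L (pt (PB 3)) (pt (PB 4)) z = 0 * z.im - (-12) * z.re + 144 := by
    rw [L_form, v3, v4]; norm_num
  have l35 : L (pt (PB 3)) (pt (PB 5)) z = 12 * z.im - (-12) * z.re + 144 := by
    rw [L_form, v3, v5]; norm_num
  have l45 : L (pt (PB 4)) (pt (PB 5)) z = 12 * z.im - 0 * z.re + 144 := by
    rw [L_form, v4, v5]; norm_num
  have e05 : L (pt (PB 0)) (pt (PB 5)) z < 0 := by
    have h5 := he 5
    rw [L_swap] at h5
    have h6 : (5 : Fin 6) + 1 = 0 := rfl
    rw [h6] at h5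
    linarith
  obtain ⟨c, s01, s02, s03, s04, s05, s12, s13, s14, s15, s23, s24, s25, s34, s35, s45⟩ := treeB z.re z.im _ _ _ _ _ _ _ _ _ _ _ _ _ _ _ l01 l02 l03 l04 l05 l12 l13 l14 l15 l23 l24 l25 l34 l35 l45 (he 0) (he 1) (he 2) (he 3) (he 4) e05 (hoff 0 2 (by decide)) (hoff 0 3 (by decide)) (hoff 0 4 (by decide)) (hoff 1 3 (by decide)) (hoff 1 4 (by decide)) (hoff 1 5 (by decide)) (hoff 2 4 (by decide)) (hoff 2 5 (by decide)) (hoff 3 5 (by decide))
  exact ⟨c, forall_pairs s01 s02 s03 s04 s05 s12 s13 s14 s15 s23 s24 s25 s34 s35 s45⟩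

end Pool.Agent.Q196.PM
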